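import Pool.Agent.H95.RQ.Targets2

/-!
# (UNI) an equivariant family of units, (UIN) the relations between such units
-/

set_option autoImplicit false

open NumberField NumberField.InfinitePlace IsDedekindDomain

namespace Pool.Agent.H3.RQ

open Pool.Agent.H95.RQ Pool.Agent.H28.RC

section

variable {F E : Type} [Field F] [Field E] [Algebra F E]

lemma us_coe (σ : E ≃ₐ[F] E) (x : Eˣ) : ((us σ x : Eˣ) : E) = σ (x : E) := rfl

lemma us_iter (σ : E ≃ₐ[F] E) (n : ℕ) (x : Eˣ) : (((us σ)^[n] x : Eˣ) : E) = (σ ^ n) (x : E) := by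
  induction n with
  | zero => rfl
  | succ n ih =>
    rw [Function.iterate_succ_apply', us_coe, ih, pow_succ']
    rfl

lemma us_U0 [NumberField E] (σ : E ≃ₐ[F] E) {x : Eˣ} (hx : x ∈ U0 E) : us σ x ∈ U0 E := by
  obtain ⟨v, rfl⟩ := hx
  refine ⟨Units.map (MulSemiringAction.toRingHom (E ≃ₐ[F] E) (𝓞 E) σ : 𝓞 E →* 𝓞 E) v, ?_⟩
  ext
  show algebraMap (𝓞 E) E (σ • (v : 𝓞 E)) = σ (algebraMap (𝓞 E) E (v : 𝓞 E))
  rw [algebraMap.smul']
  rfl

end

theorem pf_UNI (h_EQS : T_EQS) : T_UNI := by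
  intro F E _ _ _ _ _ σ n hn hσ
  obtain ⟨u, hu1, hu2⟩ : ∃ u : InfinitePlace E → Eˣ, (∀ w, u (σ • w) = us σ (u w)) ∧
      ∀ w, (u w ∈ U0 E ∧ ∀ w' : InfinitePlace E, w' ≠ w → w' (u w : E) < 1) := by
    refine h_EQS (InfinitePlace E) Eˣ (MulAction.toPermHom (E ≃ₐ[F] E) (InfinitePlace E) σ)
      (us σ) n (fun w x => x ∈ U0 E ∧ ∀ w' : InfinitePlace E, w' ≠ w → w' (x : E) < 1) hn
      ?_ ?_ ?_ ?_ ?_
    · rw [← map_pow, hσ, map_one]
    · intro a
      ext
      rw [us_iter, hσ]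
      rfl
    · rintro w x ⟨h1, h2⟩
      refine ⟨us_U0 σ h1, fun w' hw' => ?_⟩
      have h3 : w' ((us σ x : Eˣ) : E) = (σ⁻¹ • w') (x : E) := by
        rw [us_coe, InfinitePlace.smul_apply]
        rfl
      rw [h3]
      refine h2 _ fun h => hw' ?_
      rw [← h]
      show w' = σ • (σ⁻¹ • w')
      rw [smul_inv_smul]
    · rintro w x y ⟨h1, h2⟩ ⟨h3, h4⟩
      refine ⟨mul_mem h1 h3, fun w' hw' => ?_⟩
      rw [Units.val_mul, map_mul]
      have h5 := h2 w' hw'
      have h6 := h4 w' hw'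
      exact mul_lt_one_of_nonneg_of_lt_one_left (apply_nonneg w' _) h5 h6.le
    · intro w
      obtain ⟨v, hv⟩ := NumberField.Units.dirichletUnitTheorem.exists_unit E w
      refine ⟨Units.map (algebraMap (𝓞 E) E : 𝓞 E →* E) v, ⟨v, rfl⟩, fun w' hw' => ?_⟩
      have h1 := hv w' hw'
      have h2 := NumberField.Units.pos_at_place v w'
      by_contra hcon
      push Not at hcon
      have h3 := Real.log_nonneg hcon
      exact absurd h1 (not_lt.2 h3)
  exact ⟨u, fun w => (hu2 w).1, hu1, fun w w' h => (hu2 w).2 w' h⟩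

/-- the linear algebra of (UIN) -/
lemma uin_aux {X : Type} [Fintype X] [DecidableEq X] (M : X → X → ℝ)
    (hM : ∀ w w', w' ≠ w → M w w' < 0) (hs : ∀ w, ∑ w', M w w' = 0) (a : X → ℝ)
    (ha : ∀ w', ∑ w, a w * M w w' = 0) : (∀ w, a w ≤ 0) ∨ ∀ w, 0 < a w := by
  by_contra hcon
  push Not at hcon
  obtain ⟨⟨w₁, h1⟩, w₀, h0⟩ := hcon
  set P : Finset X := Finset.univ.filter fun w => 0 < a w with hP
  have hmem : ∀ w, w ∈ P ↔ 0 < a w := fun w => by simp [hP]
  have h2 : ∑ w' ∈ P, ∑ w, a w * M w w' = 0 := Finset.sum_eq_zero fun w' _ => ha w'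
  rw [Finset.sum_comm] at h2
  have h3 : ∑ w, a w * ∑ w' ∈ P, M w w' = 0 := by
    rw [← h2]
    exact Finset.sum_congr rfl fun w _ => Finset.mul_sum _ _ _
  have hcomp : ∀ w, ∑ w' ∈ P, M w w' = -∑ w' ∈ Pᶜ, M w w' := fun w => by
    have := Finset.sum_add_sum_compl P (M w)
    rw [hs] at this
    linarith
  have hpos : ∀ w, w ∈ P → 0 < a w * ∑ w' ∈ P, M w w' := by
    intro w hw
    refine mul_pos ((hmem w).1 hw) ?_
    rw [hcomp, neg_pos]
    refine Finset.sum_neg (fun w' hw' => hM w w' ?_) ⟨w₀, ?_⟩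
    · rintro rfl
      exact Finset.mem_compl.1 hw' hw
    · rw [Finset.mem_compl, hmem]
      exact not_lt.2 h0
  have hnon : ∀ w, 0 ≤ a w * ∑ w' ∈ P, M w w' := by
    intro w
    by_cases hw : w ∈ P
    · exact (hpos w hw).le
    · refine mul_nonneg_of_nonpos_of_nonpos (not_lt.1 fun h => hw ((hmem w).2 h)) ?_
      refine Finset.sum_nonpos fun w' hw' => (hM w w' ?_).le
      rintro rfl
      exact hw hw'
  have h4 : 0 < ∑ w, a w * ∑ w' ∈ P, M w w' :=
    Finset.sum_pos' (fun w _ => hnon w) ⟨w₁, Finset.mem_univ _, hpos w₁ ((hmem w₁).2 h1)⟩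
  exact absurd h3 h4.ne'

theorem pf_UIN : T_UIN := by
  classical
  intro E _ _ u hu1 hu2 a ha hsum
  obtain ⟨M, hM⟩ : ∃ M : InfinitePlace E → InfinitePlace E → ℝ,
      M = fun w w' => (w'.mult : ℝ) * Real.log (w' (u w : E)) := ⟨_, rfl⟩
  have hpos : ∀ (w : InfinitePlace E) (x : Eˣ), 0 < w (x : E) := fun w x =>
    InfinitePlace.pos_iff.2 x.ne_zero
  have hM1 : ∀ w w', w' ≠ w → M w w' < 0 := by
    intro w w' h
    rw [hM]
    refine mul_neg_of_pos_of_neg (by exact_mod_cast mult_pos) ?_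
    exact Real.log_neg (hpos _ _) (hu2 w w' h)
  have hM2 : ∀ w, ∑ w', M w w' = 0 := by
    intro w
    obtain ⟨v, hv⟩ := hu1 w
    have h1 := NumberField.Units.sum_mult_mul_log v
    rw [hM]
    simp only [← hv]
    exact h1
  have hM3 : ∀ w', ∑ w, (a w : ℝ) * M w w' = 0 := by
    intro w'
    have h1 := congrArg (fun x : Eˣ => Real.log (w' (x : E))) ha
    simp only [Units.val_one, map_one, Real.log_one, Units.coe_prod, map_prod] at h1
    rw [Real.log_prod fun w _ => (hpos w' _).ne'] at h1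
    have h2 : ∀ w, Real.log (w' ((u w ^ a w : Eˣ) : E)) = a w * Real.log (w' (u w : E)) := by
      intro w
      rw [Units.val_zpow_eq_zpow_val, map_zpow₀, Real.log_zpow]
    simp only [h2] at h1
    rw [hM]
    have h3 : ∀ w, (a w : ℝ) * ((w'.mult : ℝ) * Real.log (w' (u w : E))) =
        w'.mult * (a w * Real.log (w' (u w : E))) := fun w => by ring
    simp only [h3]
    rw [← Finset.mul_sum, h1, mul_zero]
  have hne : Nonempty (InfinitePlace E) := inferInstance
  have key : ∀ b : InfinitePlace E → ℤ, (∀ w', ∑ w, (b w : ℝ) * M w w' = 0) → ∑ w, b w = 0 →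
      ∀ w, b w ≤ 0 := by
    intro b hb hb0
    rcases uin_aux M hM1 hM2 (fun w => (b w : ℝ)) hb with h | h
    · intro w
      exact_mod_cast h w
    · exfalso
      have h1 : 0 < ∑ w, b w := Finset.sum_pos (fun w _ => by exact_mod_cast h w)
        Finset.univ_nonempty
      omega
  funext w
  have h1 := key a hM3 hsum w
  have h2 := key (fun w => -a w) (fun w' => by
    have := hM3 w'
    have h3 : ∀ w, ((-a w : ℤ) : ℝ) * M w w' = -((a w : ℝ) * M w w') := fun w => by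
      push_cast
      ring
    simp only [h3]
    rw [Finset.sum_neg_distrib, this, neg_zero]) (by
    rw [Finset.sum_neg_distrib, hsum, neg_zero]) w
  show a w = 0
  omega

end Pool.Agent.H3.RQ
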